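import Pool.Agent.MP_5f72fe_nt.H3.SpecC

/-! The form of level `3` attached to a form of the plus space. -/

namespace Pool.Agent.MP_5f72fe_nt.H83

open Complex Pool.Agent.MP_5f72fe_nt.H3

theorem sm_le {c d : ℕ → ℂ} (K : ℝ) (h : ∀ n, ‖d n‖ ≤ K * ‖c n‖) (hc : Sm c) : Sm d := by
  intro r h0 h1
  refine Summable.of_nonneg_of_le (fun n => by positivity) (fun n => ?_) ((hc r h0 h1).mul_left K)
  rw [← mul_assoc]
  exact mul_le_mul_of_nonneg_right (h n) (by positivity)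

theorem sm_add {c d : ℕ → ℂ} (hc : Sm c) (hd : Sm d) : Sm fun n => c n + d n := by
  intro r h0 h1
  refine Summable.of_nonneg_of_le (fun n => by positivity) (fun n => ?_)
    ((hc r h0 h1).add (hd r h0 h1))
  rw [← add_mul]
  exact mul_le_mul_of_nonneg_right (norm_add_le _ _) (by positivity)

theorem sm_par {c : ℕ → ℂ} (μ : ℕ) (hc : Sm c) : Sm (par μ c) :=
  sm_le 1 (fun n => by unfold par; split_ifs <;> simp) hc

theorem sm_up {c : ℕ → ℂ} {t : ℕ} (ht : 0 < t) (hc : Sm c) : Sm (up t c) := by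
  intro r h0 h1
  have hi : Function.Injective fun m : ℕ => t * m := fun a b h => Nat.eq_of_mul_eq_mul_left ht h
  rw [← hi.summable_iff]
  · refine (hc (r ^ t) (by positivity) (pow_lt_one₀ h0 h1 ht.ne')).congr fun m => ?_
    simp [up, Nat.mul_div_cancel_left _ ht, pow_mul]
  · intro x hx
    have : ¬ t ∣ x := fun ⟨m, hm⟩ => hx ⟨m, hm.symm⟩
    simp [up, this]

theorem sm_down {c : ℕ → ℂ} (hc : Sm c) : Sm fun n => c (3 * n) := by
  intro r h0 h1
  have hi : Function.Injective fun m : ℕ => 3 * m :=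
    fun a b h => Nat.eq_of_mul_eq_mul_left (by norm_num) h
  have h3 : (r ^ (1 / 3 : ℝ)) ^ 3 = r := by
    rw [← Real.rpow_natCast, ← Real.rpow_mul h0]; norm_num
  refine ((hc (r ^ (1 / 3 : ℝ)) (by positivity)
    (Real.rpow_lt_one h0 h1 (by norm_num))).comp_injective hi).congr fun m => ?_
  simp only [Function.comp, pow_mul, h3]

theorem ser_up (M : ℕ) (c : ℕ → ℂ) {t : ℕ} (ht : 0 < t) (τ : ℂ) :
    ser M (up t c) τ = ser M c (t * τ) := by
  have hi : Function.Injective fun m : ℕ => t * m := fun a b h => Nat.eq_of_mul_eq_mul_left ht h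
  unfold ser
  rw [← hi.tsum_eq]
  · refine tsum_congr fun m => ?_
    simp only [up, dvd_mul_right, if_true, Nat.mul_div_cancel_left _ ht]
    congr 2
    push_cast
    ring
  · intro x hx
    by_contra h
    have : ¬ t ∣ x := fun ⟨m, hm⟩ => h ⟨m, hm.symm⟩
    simp [up, this] at hx

theorem par_up (μ : ℕ) (c : ℕ → ℂ) {t : ℕ} (ht : t % 2 = 1) : par μ (up t c) = up t (par μ c) := by
  funext n
  unfold par up
  by_cases h : t ∣ n
  · obtain ⟨m, rfl⟩ := h
    have h0 : 0 < t := by omega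
    have h1 : t * m % 2 = m % 2 := by rw [Nat.mul_mod, ht]; simp
    simp only [dvd_mul_right, if_true, Nat.mul_div_cancel_left _ h0, h1]
  · simp [h]

theorem hs (S : RowSER) {c : ℕ → ℂ} (hc : Sm c) {τ : ℂ} (hτ : 0 < τ.im) :
    HasSum (fun n : ℕ => c n * E (n * τ / (4 : ℕ))) (ser 4 c τ) :=
  (S.nsum 4 c τ (by norm_num) hc hτ).of_norm.hasSum

theorem hs' (S : RowSER) (J : RowJH) {c : ℕ → ℂ} (hc : Sm c) {τ : ℂ} (hτ : 0 < τ.im) (s : ℝ) :
    HasSum (fun n : ℕ => c n * E (n * τ / (4 : ℕ)) * E (n * s / 4)) (ser 4 c (τ + s)) := by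
  have := hs S hc (τ := τ + s) (by simpa using hτ)
  refine this.congr_fun ?_ |> id
  intro n
  rw [mul_assoc, ← J.add]
  congr 2
  push_cast
  ring

theorem E_nat (J : RowJH) (x : ℂ) (n : ℕ) : E (n * x) = E x ^ n := by
  induction n with
  | zero => simpa using J.int 0
  | succ n ih => rw [pow_succ, ← ih, ← J.add]; congr 1; push_cast; ring

theorem s3 : ((√3 : ℝ) : ℂ) ^ 2 = 3 := by
  rw [← ofReal_pow, Real.sq_sqrt (by norm_num)]; norm_num

theorem s2 : ((√2 : ℝ) : ℂ) ^ 2 = 2 := by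
  rw [← ofReal_pow, Real.sq_sqrt (by norm_num)]; norm_num

theorem third (J : RowJH) (n : ℕ) :
    (1 + E (n * (4 / 3 : ℝ) / 4) + E (n * (-4 / 3 : ℝ) / 4) = if 3 ∣ n then 3 else 0) ∧
    E (n * (4 / 3 : ℝ) / 4) - E (n * (-4 / 3 : ℝ) / 4) = I * (√3 : ℝ) * chi3 n := by
  have e1 : E (n * (4 / 3 : ℝ) / 4) = E (1 / 3) ^ n := by
    rw [← E_nat J]; congr 1; push_cast; ring
  have e2 : E (n * (-4 / 3 : ℝ) / 4) = E (-1 / 3) ^ n := by
    rw [← E_nat J]; congr 1; push_cast; ring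
  have w := J.quarter.2.2.2
  have w3 : E (1 / 3) ^ 3 = 1 := by
    rw [← E_nat J]; simpa using J.int 1
  have v3 : E (-1 / 3) ^ 3 = 1 := by
    rw [← E_nat J]
    refine Eq.trans ?_ (J.int (-1))
    congr 1; push_cast; ring
  have v : E (-1 / 3) = (-1 - I * (√3 : ℝ)) / 2 := by
    have h1 : E (-1 / 3) = E (1 / 3) ^ 2 := by
      have := J.add (-1 / 3) (1 : ℤ)
      rw [J.int, mul_one] at this
      rw [← E_nat J, ← this]; congr 1; push_cast; ring
    rw [h1, w]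
    linear_combination (I ^ 2 / 4) * s3 + (3 / 4) * I_sq
  rw [e1, e2, ← Nat.mod_add_div n 3, pow_add, pow_add, pow_mul, pow_mul, w3, v3]
  have hc : chi3 ((n % 3 + 3 * (n / 3) : ℕ) : ℤ) = chi3 ((n % 3 : ℕ) : ℤ) := by
    unfold chi3
    push_cast
    exact Int.add_mul_bmod_self_left _ 3 _
  rw [hc]
  have hd : (3 ∣ n % 3 + 3 * (n / 3)) ↔ n % 3 = 0 := by omega
  simp only [hd, one_pow, mul_one]
  have : n % 3 = 0 ∨ n % 3 = 1 ∨ n % 3 = 2 := by omega
  rcases this with h | h | h <;> rw [h]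
  · have : chi3 ((0 : ℕ) : ℤ) = 0 := by decide
    rw [this]; constructor <;> norm_num
  · have : chi3 ((1 : ℕ) : ℤ) = 1 := by decide
    rw [this, w, v]; constructor <;> simp <;> ring
  · have : chi3 ((2 : ℕ) : ℤ) = -1 := by decide
    rw [this, w, v]
    constructor
    · simp only [OfNat.ofNat_ne_zero, if_false]
      linear_combination (I ^ 2 / 2) * s3 + (3 / 2) * I_sq
    · push_cast; ring

theorem avg (S : RowSER) (J : RowJH) {d : ℕ → ℂ} (hd : Sm d) {x : ℂ} (hx : 0 < x.im) :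
    3 * ser 4 (fun n => d (3 * n)) (3 * x) =
      ser 4 d x + ser 4 d (x + (4 / 3 : ℝ)) + ser 4 d (x + (-4 / 3 : ℝ)) := by
  have h1 := ((hs S hd hx).add (hs' S J hd hx (4 / 3))).add (hs' S J hd hx (-4 / 3))
  have h2 := (hs S (sm_up (t := 3) (by norm_num) (sm_down hd)) hx).mul_left 3
  rw [ser_up _ _ (by norm_num)] at h2
  refine HasSum.unique (by exact_mod_cast h2) (h1.congr_fun fun n => ?_)
  have := (third J n).1
  unfold up
  split_ifs at this ⊢ with h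
  · beta_reduce
    rw [Nat.mul_div_cancel' h]
    push_cast at this ⊢
    linear_combination (-(d n * E (n * x / 4))) * this
  · push_cast at this ⊢
    linear_combination (-(d n * E (n * x / 4))) * this

theorem tw (S : RowSER) (J : RowJH) {d : ℕ → ℂ} (hd : Sm d) {x : ℂ} (hx : 0 < x.im) :
    HasSum (fun n : ℕ => I * (√3 : ℝ) * chi3 n * d n * E (n * x / (4 : ℕ)))
      (ser 4 d (x + (4 / 3 : ℝ)) - ser 4 d (x + (-4 / 3 : ℝ))) := by
  refine ((hs' S J hd hx (4 / 3)).sub (hs' S J hd hx (-4 / 3))).congr_fun fun n => ?_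
  rw [← (third J n).2]
  ring

theorem shift (J : RowJH) {d : ℕ → ℂ} {e : ℕ} (h : ∀ n, d n ≠ 0 → n % 4 = e) (x : ℂ) :
    ser 4 d (x + 1) = I ^ e * ser 4 d x := by
  unfold ser
  rw [← tsum_mul_left]
  refine tsum_congr fun n => ?_
  by_cases h0 : d n = 0
  · simp [h0]
  · have e1 : E (n * (x + 1) / (4 : ℕ)) = E (n * x / (4 : ℕ)) * E (1 / 4) ^ n := by
      rw [← E_nat J, ← J.add]; congr 1; push_cast; ring
    rw [e1, J.quarter.1, ← Nat.mod_add_div n 4, pow_add, pow_mul, I_pow_four, Nat.mod_add_div,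
      h n h0]
    ring

theorem im_inv {τ : ℂ} (h : 0 < τ.im) : 0 < (-1 / τ).im := by
  have h0 : τ ≠ 0 := fun e => by simp [e] at h
  have : (-1 / τ).im = τ.im / normSq τ := by simp [div_im]; ring
  rw [this]
  exact div_pos h (normSq_pos.2 h0)

section key

variable (J : RowJH) {h0 h1 : ℂ → ℂ} {C : ℂ} {k : ℕ} (hC : C ^ 2 = 1)
  (l0 : ∀ τ : ℂ, 0 < τ.im → h0 (-1 / τ) = C * Jh τ ^ (2 * k + 1) * ((h0 τ + h1 τ) / (√2 : ℝ)))
  (l1 : ∀ τ : ℂ, 0 < τ.im → h1 (-1 / τ) = C * Jh τ ^ (2 * k + 1) * ((h0 τ - h1 τ) / (√2 : ℝ)))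
  (t0 : ∀ x, h0 (x + 1) = h0 x) (t1 : ∀ x, h1 (x + 1) = I * h1 x)

include J hC l0 l1 t0 t1

theorem keyP {τ : ℂ} (hτ : 0 < τ.im) :
    h0 (-1 / (9 * τ) + (4 / 3 : ℝ)) = 3 ^ k * (√3 : ℝ) * I ^ (k + 1) * Jh τ ^ (2 * k + 1) *
      ((h0 (τ + (-4 / 3 : ℝ)) + h1 (τ + (-4 / 3 : ℝ))) / (√2 : ℝ)) ∧
    h1 (-1 / (9 * τ) + (4 / 3 : ℝ)) = 3 ^ k * (√3 : ℝ) * I ^ (k + 1) * Jh τ ^ (2 * k + 1) *
      ((h0 (τ + (-4 / 3 : ℝ)) - h1 (τ + (-4 / 3 : ℝ))) / (√2 : ℝ)) := by
  have hτ0 : τ ≠ 0 := fun e => by simp [e] at hτ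
  set y : ℂ := τ + (-4 / 3 : ℝ) + 1 with hy
  have hyi : 0 < y.im := by simpa [hy] using hτ
  have hy0 : y ≠ 0 := fun e => by simp [e] at hyi
  have hy3 : 1 + 3 * y = 3 * τ := by rw [hy]; push_cast; ring
  set σ : ℂ := -1 / y - 3 with hσ
  have hσi : 0 < σ.im := by simpa [hσ] using im_inv hyi
  have hσy : -(σ * y) = 3 * τ := by rw [hσ, ← hy3]; field_simp; ring
  have hσ0 : σ ≠ 0 := fun e => by simp [e] at hσi
  have e1 : -1 / (9 * τ) + (4 / 3 : ℝ) = -1 / σ + 1 := by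
    have : σ = -(3 * τ) / y := by rw [← hσy]; field_simp
    rw [this]
    have : y = τ - 1 / 3 := by rw [hy]; push_cast; ring
    rw [this] at hy0 ⊢
    push_cast
    field_simp
    ring
  have e2 : -1 / y = σ + 1 + 1 + 1 := by rw [hσ]; ring
  have jj : Jh σ * Jh y = E (1 / 8) * ((√3 : ℝ) * Jh τ) := by
    rw [J.mul _ _ hσi hyi, hσy, (J.root _ (by simpa using hτ)).1, ← J.scale 3 τ (by norm_num)]
    norm_num
  have e8 : E (1 / 8) ^ 2 = I := by
    rw [← E_nat J, ← J.quarter.1]; congr 1; push_cast; ring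
  have jw : Jh σ ^ (2 * k + 1) * Jh y ^ (2 * k + 1) =
      E (1 / 8) * I ^ k * (3 ^ k * (√3 : ℝ)) * Jh τ ^ (2 * k + 1) := by
    rw [← mul_pow, jj, mul_pow, mul_pow, pow_succ (E _), pow_succ ((√3 : ℝ) : ℂ), pow_mul (E _),
      pow_mul ((√3 : ℝ) : ℂ), e8, s3]
    ring
  have a0 := l0 y hyi
  have a1 := l1 y hyi
  rw [e2] at a0 a1
  simp only [t0, t1] at a0 a1
  have b0 : h0 y = h0 (τ + (-4 / 3 : ℝ)) := t0 _
  have b1 : h1 y = I * h1 (τ + (-4 / 3 : ℝ)) := t1 _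
  have a1' : h1 σ = I * (C * Jh y ^ (2 * k + 1) * ((h0 y - h1 y) / (√2 : ℝ))) := by
    rw [← a1]; linear_combination (-(h1 σ) * (I ^ 2 - 1)) * I_sq
  have q := J.quarter.2.2.1
  have r2 : ((√2 : ℝ) : ℂ) ≠ 0 := fun e => by have := s2; rw [e] at this; norm_num at this
  rw [e1, t0, t1, l0 σ hσi, l1 σ hσi, a0, a1', b0, b1]
  generalize h0 (τ + (-4 / 3 : ℝ)) = a
  generalize h1 (τ + (-4 / 3 : ℝ)) = b
  have f : ∀ u : ℂ, C * Jh σ ^ (2 * k + 1) * (C * Jh y ^ (2 * k + 1) * (E (1 / 8) * u)) =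
      3 ^ k * (√3 : ℝ) * I ^ (k + 1) * Jh τ ^ (2 * k + 1) * u := by
    intro u
    calc _ = C ^ 2 * (Jh σ ^ (2 * k + 1) * Jh y ^ (2 * k + 1)) * (E (1 / 8) * u) := by ring
      _ = E (1 / 8) ^ 2 * I ^ k * (3 ^ k * (√3 : ℝ)) * Jh τ ^ (2 * k + 1) * u := by
        rw [hC, jw]; ring
      _ = _ := by rw [e8]; ring
  constructor
  · rw [← f, q]
    field_simp
    linear_combination (C ^ 2 * Jh σ ^ (2 * k + 1) * Jh y ^ (2 * k + 1) * (-b)) * I_sq
  · rw [← f, q]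
    field_simp
    linear_combination (C ^ 2 * Jh σ ^ (2 * k + 1) * Jh y ^ (2 * k + 1) * (-a + b + b * I)) * I_sq

theorem keyM {τ : ℂ} (hτ : 0 < τ.im) :
    h0 (-1 / (9 * τ) + (-4 / 3 : ℝ)) = 3 ^ k * (√3 : ℝ) * (-I) ^ (k + 1) * Jh τ ^ (2 * k + 1) *
      ((h0 (τ + (4 / 3 : ℝ)) + h1 (τ + (4 / 3 : ℝ))) / (√2 : ℝ)) ∧
    h1 (-1 / (9 * τ) + (-4 / 3 : ℝ)) = 3 ^ k * (√3 : ℝ) * (-I) ^ (k + 1) * Jh τ ^ (2 * k + 1) *
      ((h0 (τ + (4 / 3 : ℝ)) - h1 (τ + (4 / 3 : ℝ))) / (√2 : ℝ)) := by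
  have hτ0 : τ ≠ 0 := fun e => by simp [e] at hτ
  have t0' : ∀ x, h0 (x - 1) = h0 x := fun x => by rw [← t0 (x - 1), sub_add_cancel]
  have t1' : ∀ x, h1 (x - 1) = -I * h1 x := fun x => by
    have := t1 (x - 1)
    rw [sub_add_cancel] at this
    rw [this]
    linear_combination (h1 (x - 1)) * I_sq
  set y : ℂ := τ + (4 / 3 : ℝ) - 1 with hy
  have hyi : 0 < y.im := by simpa [hy] using hτ
  have hy0 : y ≠ 0 := fun e => by simp [e] at hyi
  have hy3 : 1 - 3 * y = -(3 * τ) := by rw [hy]; push_cast; ring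
  set σ : ℂ := -1 / y + 3 with hσ
  have hσi : 0 < σ.im := by simpa [hσ] using im_inv hyi
  have hσy : -(σ * y) = -(3 * τ) := by rw [hσ, ← hy3]; field_simp; ring
  have hσ0 : σ ≠ 0 := fun e => by simp [e] at hσi
  have e1 : -1 / (9 * τ) + (-4 / 3 : ℝ) = -1 / σ - 1 := by
    have : σ = (3 * τ) / y := by rw [← neg_inj.1 hσy]; field_simp
    rw [this]
    have : y = τ + 1 / 3 := by rw [hy]; push_cast; ring
    rw [this] at hy0 ⊢
    push_cast
    field_simp
    ring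
  have e2 : -1 / y = σ - 1 - 1 - 1 := by rw [hσ]; ring
  have jj : Jh σ * Jh y = E (-1 / 8) * ((√3 : ℝ) * Jh τ) := by
    rw [J.mul _ _ hσi hyi, hσy, (J.root _ (by simpa using hτ)).2, ← J.scale 3 τ (by norm_num)]
    norm_num
  have r2 : ((√2 : ℝ) : ℂ) ≠ 0 := fun e => by have := s2; rw [e] at this; norm_num at this
  have q : E (-1 / 8) = (1 - I) / (√2 : ℝ) := by
    have h : E (-1 / 8) * E (1 / 8) = 1 := by
      rw [← J.add, ← J.int 0]; congr 1; push_cast; ring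
    rw [J.quarter.2.2.1] at h
    field_simp at h ⊢
    have h2 := s2
    have : (1 + I) * (E (-(1 / 8)) * (√2 : ℝ) - (1 - I)) = 0 := by
      linear_combination ((√2 : ℝ) : ℂ) * h + h2 + I_sq
    have h3 : (1 + I : ℂ) ≠ 0 := fun e => by simpa using congrArg re e
    exact sub_eq_zero.1 ((mul_eq_zero.1 this).resolve_left h3)
  have e8 : E (-1 / 8) ^ 2 = -I := by
    rw [q, div_pow, s2]
    linear_combination (1 / 2) * I_sq
  have jw : Jh σ ^ (2 * k + 1) * Jh y ^ (2 * k + 1) =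
      E (-1 / 8) * (-I) ^ k * (3 ^ k * (√3 : ℝ)) * Jh τ ^ (2 * k + 1) := by
    rw [← mul_pow, jj, mul_pow, mul_pow, pow_succ (E _), pow_succ ((√3 : ℝ) : ℂ), pow_mul (E _),
      pow_mul ((√3 : ℝ) : ℂ), e8, s3]
    ring
  have a0 := l0 y hyi
  have a1 := l1 y hyi
  rw [e2] at a0 a1
  simp only [t0', t1'] at a0 a1
  have b0 : h0 y = h0 (τ + (4 / 3 : ℝ)) := t0' _
  have b1 : h1 y = -I * h1 (τ + (4 / 3 : ℝ)) := t1' _
  have a1' : h1 σ = -I * (C * Jh y ^ (2 * k + 1) * ((h0 y - h1 y) / (√2 : ℝ))) := by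
    rw [← a1]; linear_combination (-(h1 σ) * (I ^ 2 - 1)) * I_sq
  rw [e1, t0', t1', l0 σ hσi, l1 σ hσi, a0, a1', b0, b1]
  generalize h0 (τ + (4 / 3 : ℝ)) = a
  generalize h1 (τ + (4 / 3 : ℝ)) = b
  have f : ∀ u : ℂ, C * Jh σ ^ (2 * k + 1) * (C * Jh y ^ (2 * k + 1) * (E (-1 / 8) * u)) =
      3 ^ k * (√3 : ℝ) * (-I) ^ (k + 1) * Jh τ ^ (2 * k + 1) * u := by
    intro u
    calc _ = C ^ 2 * (Jh σ ^ (2 * k + 1) * Jh y ^ (2 * k + 1)) * (E (-1 / 8) * u) := by ring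
      _ = E (-1 / 8) ^ 2 * (-I) ^ k * (3 ^ k * (√3 : ℝ)) * Jh τ ^ (2 * k + 1) * u := by
        rw [hC, jw]; ring
      _ = _ := by rw [e8]; ring
  constructor
  · rw [← f, q]
    field_simp
    linear_combination (C ^ 2 * Jh σ ^ (2 * k + 1) * Jh y ^ (2 * k + 1) * (-b)) * I_sq
  · rw [← f, q]
    field_simp
    linear_combination (C ^ 2 * Jh σ ^ (2 * k + 1) * Jh y ^ (2 * k + 1) * (-a + b - b * I)) * I_sq

end key

theorem ser_smul (M : ℕ) (a : ℂ) (c : ℕ → ℂ) (τ : ℂ) :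
    ser M (fun n => a * c n) τ = a * ser M c τ := by
  unfold ser
  rw [← tsum_mul_left]
  exact tsum_congr fun n => mul_assoc _ _ _

theorem serD (S : RowSER) (J : RowJH) (k : ℕ) {d : ℕ → ℂ} (hd : Sm d) {τ : ℂ} (hτ : 0 < τ.im) :
    I * (√3 : ℝ) * ser 4 (fun n => I ^ k * (3 ^ (2 * k) * up 9 d n + 3 ^ k * chi3 n * d n)) τ =
      I ^ k * (I * (√3 : ℝ) * 3 ^ (2 * k) * ser 4 d (9 * τ) +
        3 ^ k * (ser 4 d (τ + (4 / 3 : ℝ)) - ser 4 d (τ + (-4 / 3 : ℝ)))) := by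
  have h1 := hs S (sm_up (t := 9) (by norm_num) hd) hτ
  rw [ser_up _ _ (by norm_num)] at h1
  have h2 := ((h1.mul_left (I * (√3 : ℝ) * 3 ^ (2 * k))).add
    ((tw S J hd hτ).mul_left (3 ^ k))).mul_left (I ^ k)
  unfold ser at *
  rw [← tsum_mul_left]
  refine Eq.trans (tsum_congr fun n => ?_) (by exact_mod_cast h2.tsum_eq)
  push_cast
  ring

theorem chi3_le (n : ℤ) : ‖((chi3 n : ℤ) : ℂ)‖ ≤ 1 := by
  have h1 : -1 ≤ chi3 n := by
    have := Int.le_bmod (x := n) (m := 3) (by norm_num); unfold chi3; omega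
  have h2 : chi3 n < 2 := by
    have := Int.bmod_lt (x := n) (m := 3) (by norm_num); unfold chi3; omega
  rw [Complex.norm_intCast]
  exact_mod_cast abs_le.2 ⟨h1, by omega⟩

theorem rowV3 : OfV3 := by
  intro S J k c ⟨hc, hsup, hl⟩
  have hl' : ∀ τ : ℂ, 0 < τ.im → ∀ μ < 2, ser 4 (par μ c) (-1 / τ) =
      I ^ (k + k % 2) * Jh τ ^ (2 * k + 1) *
        ((ser 4 (par 0 c) τ + (-1) ^ μ * ser 4 (par 1 c) τ) / (√2 : ℝ)) := by
    intro τ hτ μ hμ
    simpa using hl τ hτ μ hμ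
  unfold toV toD
  rcases Nat.mod_two_eq_zero_or_one k with hk | hk
  · simp only [hk, if_true, mul_zero, add_zero] at hsup hl' ⊢
    refine ⟨sm_down hc, ?_, fun n h => ?_, fun n h => ?_, fun τ hτ μ hμ => ?_⟩
    · refine sm_le ‖I ^ k‖ (fun n => (norm_mul _ _).le) (sm_add ?_ ?_)
      · exact sm_le _ (fun n => (norm_mul _ _).le) (sm_up (by norm_num) hc)
      · refine sm_le ‖(3 : ℂ) ^ k‖ (fun n => ?_) hc
        rw [norm_mul, norm_mul]
        exact mul_le_mul_of_nonneg_right (mul_le_of_le_one_right (norm_nonneg _) (chi3_le _))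
          (norm_nonneg _)
    · have := hsup _ h
      omega
    · by_cases h1 : c n = 0
      · by_cases h2 : 9 ∣ n
        · obtain ⟨m, rfl⟩ := h2
          have : c m ≠ 0 := fun e => h (by simp [up, h1, e])
          have := hsup _ this
          omega
        · exact absurd (by simp [up, h1, h2]) h
      · exact hsup _ h1
    · have hC : (I ^ k) ^ 2 = 1 := by
        obtain ⟨m, rfl⟩ : ∃ m, k = 2 * m := ⟨k / 2, by omega⟩
        rw [← pow_mul, show 2 * m * 2 = 4 * m by ring, pow_mul, I_pow_four, one_pow]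
      have hneg : (-I) ^ (k + 1) = -I ^ (k + 1) := Odd.neg_pow (Nat.odd_iff.2 (by omega)) _
      have t0 : ∀ x, ser 4 (par 0 c) (x + 1) = ser 4 (par 0 c) x := fun x => by
        rw [shift J (e := 0), pow_zero, one_mul]
        intro n hn
        unfold par at hn
        split_ifs at hn with h
        · have := hsup _ hn
          omega
        · exact absurd rfl hn
      have t1 : ∀ x, ser 4 (par 1 c) (x + 1) = I * ser 4 (par 1 c) x := fun x => by
        rw [shift J (e := 1), pow_one]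
        intro n hn
        unfold par at hn
        split_ifs at hn with h
        · have := hsup _ hn
          omega
        · exact absurd rfl hn
      have l0 := fun τ hτ => hl' τ hτ 0 (by norm_num)
      have l1 := fun τ hτ => hl' τ hτ 1 (by norm_num)
      simp only [pow_zero, one_mul] at l0
      simp only [pow_one, neg_one_mul, ← sub_eq_add_neg] at l1
      have kP := keyP J hC l0 l1 t0 t1 hτ
      have kM := keyM J hC l0 l1 t0 t1 hτ
      have h9 : 0 < (9 * τ).im := by simpa using hτ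
      have j9 : Jh (9 * τ) = 3 * Jh τ := by
        have := J.scale 9 τ (by norm_num)
        rw [show (9 : ℝ) = 3 ^ 2 by norm_num, Real.sqrt_sq (by norm_num)] at this
        convert this using 2 <;> norm_num
      have pD : ∀ ν, par ν (fun n => I ^ k * (3 ^ (2 * k) * up 9 c n + 3 ^ k * chi3 n * c n)) =
          fun n => I ^ k * (3 ^ (2 * k) * up 9 (par ν c) n + 3 ^ k * chi3 n * par ν c n) := by
        intro ν
        rw [← par_up ν c (by norm_num)]
        funext n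
        unfold par
        split_ifs <;> simp
      have pV : par μ (fun n => c (3 * n)) = fun n => par μ c (3 * n) := by
        funext n
        unfold par
        rw [show 3 * n % 2 = n % 2 by omega]
      have hτ0 : τ ≠ 0 := fun e => by simp [e] at hτ
      have av := avg S J (sm_par μ hc) (im_inv h9)
      rw [show 3 * (-1 / (9 * τ)) = -1 / ((3 : ℕ) * τ) by push_cast; field_simp; norm_num] at av
      have d0 := serD S J k (sm_par 0 hc) hτ
      have d1 := serD S J k (sm_par 1 hc) hτ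
      have r3 : ((√3 : ℝ) : ℂ) ≠ 0 := fun e => by have := s3; rw [e] at this; norm_num at this
      rw [pD, pD, pV]
      refine mul_left_cancel₀ (mul_ne_zero (mul_ne_zero I_ne_zero r3) three_ne_zero) ?_
      rw [mul_assoc, av, hl' _ h9 μ hμ, j9, mul_pow]
      generalize ser 4 (fun n => I ^ k * (3 ^ (2 * k) * up 9 (par 0 c) n +
        3 ^ k * chi3 n * par 0 c n)) τ = D0 at d0 ⊢
      generalize ser 4 (fun n => I ^ k * (3 ^ (2 * k) * up 9 (par 1 c) n +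
        3 ^ k * chi3 n * par 1 c n)) τ = D1 at d1 ⊢
      have h3 := s3
      interval_cases μ
      · rw [kP.1, kM.1, hneg]
        linear_combination (-3 * Jh τ ^ (2 * k + 1) / (√2 : ℝ)) * (d0 + d1) +
          (3 ^ k * I ^ k * Jh τ ^ (2 * k + 1) / (√2 : ℝ) *
            (ser 4 (par 0 c) (τ + (-4 / 3 : ℝ)) + ser 4 (par 1 c) (τ + (-4 / 3 : ℝ)) -
              ser 4 (par 0 c) (τ + (4 / 3 : ℝ)) - ser 4 (par 1 c) (τ + (4 / 3 : ℝ)))) *
            (I ^ 2 * h3 + 3 * I_sq)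
      · rw [kP.2, kM.2, hneg]
        linear_combination (-3 * Jh τ ^ (2 * k + 1) / (√2 : ℝ)) * (d0 - d1) +
          (3 ^ k * I ^ k * Jh τ ^ (2 * k + 1) / (√2 : ℝ) *
            (ser 4 (par 0 c) (τ + (-4 / 3 : ℝ)) - ser 4 (par 1 c) (τ + (-4 / 3 : ℝ)) -
              ser 4 (par 0 c) (τ + (4 / 3 : ℝ)) + ser 4 (par 1 c) (τ + (4 / 3 : ℝ)))) *
            (I ^ 2 * h3 + 3 * I_sq)
  · simp only [hk, one_ne_zero, if_false, mul_one] at hsup hl' ⊢
    refine ⟨hc, sm_le _ (fun n => (norm_mul _ _).le) (sm_up (by norm_num) hc), hsup,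
      fun n h => ?_, fun τ hτ μ hμ => ?_⟩
    · by_cases h2 : 3 ∣ n
      · obtain ⟨m, rfl⟩ := h2
        have : c m ≠ 0 := fun e => h (by simp [up, e])
        have := hsup _ this
        omega
      · exact absurd (by simp [up, h2]) h
    · have h3 : 0 < (((3 : ℕ) : ℂ) * τ).im := by simpa using hτ
      have j3 : Jh ((3 : ℕ) * τ) = (√3 : ℝ) * Jh τ := by
        exact_mod_cast J.scale 3 τ (by norm_num)
      have pD : ∀ ν, par ν (fun n => I ^ (k + 1) * 3 ^ k * (√3 : ℝ) * up 3 c n) =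
          fun n => I ^ (k + 1) * 3 ^ k * (√3 : ℝ) * up 3 (par ν c) n := by
        intro ν
        rw [← par_up ν c (by norm_num)]
        funext n
        unfold par
        split_ifs <;> simp
      rw [hl' _ h3 μ hμ, pD, pD, ser_smul, ser_smul, ser_up _ _ (by norm_num),
        ser_up _ _ (by norm_num), j3, mul_pow, pow_succ ((√3 : ℝ) : ℂ), pow_mul, s3]
      ring

end Pool.Agent.MP_5f72fe_nt.H83
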